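import Mathlib
import Pool.Agent.H419.RT.Equi

set_option autoImplicit false

/-!
# The Sato-Tate law in additive problems with primes

`K` is a number field (`K = ℚ` in the problem), `q_v` the norm of the prime `v` of `K`, `G` a compact
group (the Sato-Tate group of an abelian variety over `K`), `μ` its Haar measure (or any other
probability measure) and `x_v ∈ G` the normalized Frobenius classes (any sequence in `G`; no
hypothesis is made on it).

**Part 1.** For an arbitrary bounded function `g` on the primes of `K` the following are equivalent:

* `Phase g`: `∑_{q_v ≤ N} g(v) e(α q_v) = o(N / log N)`, uniformly in `α`;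
* `Binary g`: `∑_{n ≤ N} |∑_{q_v + q_w = n} g(v) h(w)|² = o(N³ / log⁴ N)`, uniformly for all weights
  `h` bounded by `1` (so for almost all `n` the sum over the Goldbach pairs is `o(n / log² n)`,
  which is small compared with the expected number of the pairs);
* `Difference g`: `∑_{|m| ≤ N} |∑_{q_v - q_w = m, q_v, q_w ≤ N} g(v) h(w)|² = o(N³ / log⁴ N)`,
  uniformly for all weights `h` bounded by `1` (prime pairs with difference `m`);
* `Ternary g`: `∑_{q_u + q_v + q_w = n} g(u) h(v) k(w) = o(n² / log³ n)` for *all* large `n`,
  uniformly for all weights `h`, `k` bounded by `1` (Vinogradov's three primes);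
* `Quadruple g`: the mean value of `g(v₁) g(v₂)` times the complex conjugate of `g(v₃) g(v₄)` over
  the additive quadruples `q₁ + q₂ = q₃ + q₄`, `q_i ≤ N`, of primes tends to zero.

**Part 2.** For the classes `x_v` the law with linear phases, the law in the binary problem of
Goldbach, the law for prime pairs with given difference, the law in the ternary problem of Goldbach
(all of them for `f(x_v) - ∫ f dμ`, `f` a continuous class function, and with arbitrary weights on
the other primes, which may depend on their own classes) and the joint law of the four classes
`(x_{v₁}, x_{v₂}, x_{v₃}, x_{v₄})` of the additive quadruples (the mean value of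
`f₁(x_{v₁}) f₂(x_{v₂}) f₃(x_{v₃}) f₄(x_{v₄})` tends to the product of the integrals, for all
continuous class functions `f_i`) are equivalent, and they imply the Sato-Tate law.

The proof rests on a restriction estimate for the primes of `K`: for all coefficients `g` bounded
by `1` and `N ≤ M ≤ 4N` one has
`∑_{t < M} |∑_{q_v ≤ N} g(v) e(t q_v / M)|^{5/2} ≤ C (N / log N)^{5/2}`, `C = C(K)`
(`Pool.Agent.H419.RT.moment_K`), following Bourgain: duality, the bound for the exponential sum over
the primes at all points, Fejér kernels around the rationals with small denominators and the moments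
of the number of the small divisors.
-/

namespace Pool.Agent.Results.MP_753a9c_nt.AdditiveProblems

open NumberField IsDedekindDomain MeasureTheory
open Pool.Agent.H419.BS (Equidistributed)
open Pool.Agent.H419.RT (Phase Binary Difference Ternary Quadruple Law QuadLaw)

/-- **The Sato-Tate law in additive problems with primes.** -/
theorem result (K : Type) [Field K] [NumberField K] :
    (∀ (g : HeightOneSpectrum (𝓞 K) → ℂ) (B : ℝ), (∀ v, ‖g v‖ ≤ B) →
      List.TFAE [Phase g, Binary g, Difference g, Ternary g, Quadruple g]) ∧
    ∀ (G : Type) [Group G] [TopologicalSpace G] [CompactSpace G] [MeasurableSpace G]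
      [BorelSpace G] (μ : Measure G) [IsProbabilityMeasure μ] (x : HeightOneSpectrum (𝓞 K) → G),
      List.TFAE [Law Phase x μ, Law Binary x μ, Law Difference x μ, Law Ternary x μ,
        QuadLaw x μ] ∧
      (Law Phase x μ → Equidistributed (fun _ => True) x μ) :=
  ⟨fun _ _ hg => Pool.Agent.H419.RT.equivalences hg,
    fun _ _ _ _ _ _ μ _ x => ⟨Pool.Agent.H419.RT.law_equivalences x μ,
      Pool.Agent.H419.RT.law_equi x μ⟩⟩

end Pool.Agent.Results.MP_753a9c_nt.AdditiveProblems
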