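import Pool.Agent.H414.ST.Dir
import Pool.Agent.H414.ST.Meas

/-!
# What a set of `L`-functions says about the Sato-Tate law: the moments and nothing else

The Sato-Tate conjecture for an abelian variety `A` with the Sato-Tate group `G` follows from the
properties of the `L`-functions `L(s, ρ(A))`, for all irreducible representations `ρ ≠ 1` of `G`,
on the line `Re s = 1` (Serre). Usually these properties are known only for some of the `ρ`. We
determine which laws of the Frobenius classes are compatible with the knowledge of a given set of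
`L`-functions, also if this knowledge includes the Riemann hypothesis and all twists with
Dirichlet characters.

The classes of `SU(2)^g`, and those of `USp(2g)`, are given by the traces
`t_i = α_i + α_i⁻¹ = 2 cos θ_i ∈ [-2, 2]`, `i ≤ g`. A representation of `SU(2)^g` is given by the
multiplicities `m_k` of its components `Sym^{k_1} ⊗ ... ⊗ Sym^{k_g}`; every representation of
`USp(2g)` is determined by its restriction to `SU(2)^g`. We consider systems of classes `x_p`, one
for each prime number `p`, such that `√p α_i` is an algebraic integer with an integral trace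
`a_{p,i}`, `a_{p,i}² ≤ 4p`: by Deuring `x_p` is then the class of the Frobenius of an abelian
variety `A_p` over `𝔽_p`, a product of elliptic curves.

(1) For *every* probability measure `ν` on the space of classes there is such a system which has
  the law `ν`, also inside of every arithmetic progression, and for which for all representations
  `ρ` and all Dirichlet characters `χ`, with `c = ∫ tr ρ dν`,
  `L(s, ρ ⊗ χ) = exp (c log L(s, χ) + h(s))`, `h` holomorphic for `Re s > 1/2`.
(2) Let `F` be a set of pairs `(ρ, e)`, `e` a natural number. Equivalent are: `ν` is the law of an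
  integral system in all progressions such that `L(s, ρ ⊗ χ) = L(s, χ)^e exp (h(s))`, `h`
  holomorphic for `Re s > 1/2`, for all `(ρ, e) ∈ F` and all Dirichlet characters `χ`; `ν` is the
  law of some system such that `(s - 1)^e L(s, ρ)` has a limit `≠ 0` for `s → 1+`, for all
  `(ρ, e) ∈ F`; `∫ tr ρ dν = e` for all `(ρ, e) ∈ F`. So the continuation to `Re s > 1/2`, the
  Riemann hypothesis and the twists add nothing to the order at the one point `s = 1`, and the
  `L`-functions in `F` imply a statement on the law if and only if it follows from the moments.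
(3) In particular no irreducible representation can be omitted from the criterion of Serre: for
  every irreducible `k₀ ≠ 1` of `SU(2)^g` there is an integral system for which all `L(s, k ⊗ χ)`,
  `k ≠ 1, k₀` irreducible, are holomorphic and without zeros for `Re s > 1/2`, and whose law is
  not the Sato-Tate law; `L(s, k₀ ⊗ χ) = exp (c log L(s, χ) + h(s))` with `0 < c < 1`.
-/

set_option autoImplicit false

namespace Pool.Agent.Results.MP_753a9c_nt.CompatibleLaws

open Filter Topology MeasureTheory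

/-- `U_n(t)`, the trace of `Sym^n` at the class of `SU(2)` with the trace `t`. -/
def U : ℕ → ℝ → ℝ
  | 0, _ => 1
  | 1, t => t
  | n + 2, t => t * U (n + 1) t - U n t

/-- Representations of `SU(2)^g`: `m k` is the multiplicity of the irreducible representation
`Sym^{k_1} ⊗ ... ⊗ Sym^{k_g}`. -/
abbrev Rep (g : ℕ) : Type := (Fin g → ℕ) →₀ ℕ

variable {g : ℕ}

/-- The trace of the representation `m` at the class with the traces `t_1, ..., t_g`. -/
noncomputable def character (m : Rep g) (t : Fin g → ℝ) : ℝ :=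
  m.sum fun k e => e * ∏ i, U (k i) (t i)

/-- The local factor `det (1 - z m(x))⁻¹` at the class `x` with the eigenvalues `α_i, α_i⁻¹`: the
product of the `(1 - α_1^(k_1 - 2 j_1) ... α_g^(k_g - 2 j_g) z)⁻¹`, `0 ≤ j_i ≤ k_i`, to the power
`m k`, over all `k`. -/
noncomputable def factor (m : Rep g) (α : Fin g → ℂ) (z : ℂ) : ℂ :=
  m.prod fun k e => (∏ j : (i : Fin g) → Fin (k i + 1),
    (1 - (∏ i, α i ^ ((k i : ℤ) - 2 * ((j i : ℕ) : ℤ))) * z)⁻¹) ^ e

/-- A system of classes of `SU(2)^g`, given by the eigenvalues `α_i`; only the values at the prime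
numbers matter. -/
def IsSystem (x : ℕ → Fin g → ℂ) : Prop := ∀ p i, ‖x p i‖ = 1

/-- The numbers `√p (α_i + α_i⁻¹)` are integers, so that `√p α_i` and `√p α_i⁻¹` are the roots of
`X² - a X + p` with an integer `a`, `a² ≤ 4 p`. -/
def IsIntegral (x : ℕ → Fin g → ℂ) : Prop :=
  ∀ p : ℕ, p.Prime → ∀ i, ∃ a : ℤ, (Real.sqrt p : ℂ) * (x p i + (x p i)⁻¹) = a

/-- The traces `t_i = α_i + α_i⁻¹ = 2 Re α_i`. -/
def traces (α : Fin g → ℂ) : Fin g → ℝ := fun i => 2 * (α i).re

/-- The mean of `f (t_p)` over the prime numbers `p < N` with `p % q = a`. -/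
noncomputable def average (q a : ℕ) (x : ℕ → Fin g → ℂ) (f : (Fin g → ℝ) → ℝ) (N : ℕ) : ℝ :=
  (∑ p ∈ (Finset.range N).filter (fun p => p.Prime ∧ p % q = a), f (traces (x p))) /
    ((Finset.range N).filter fun p => p.Prime ∧ p % q = a).card

/-- The classes `x_p` have the law `ν`. -/
def HasLaw (x : ℕ → Fin g → ℂ) (ν : Measure (Fin g → ℝ)) : Prop :=
  ∀ f : (Fin g → ℝ) → ℝ, Continuous f → Tendsto (average 1 0 x f) atTop (𝓝 (∫ t, f t ∂ν))

/-- The classes `x_p` have the law `ν`, also if `p` is restricted to a residue class `a` modulo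
`q`, `(a, q) = 1`. -/
def HasLawAP (x : ℕ → Fin g → ℂ) (ν : Measure (Fin g → ℝ)) : Prop :=
  ∀ q a : ℕ, a < q → a.Coprime q → ∀ f : (Fin g → ℝ) → ℝ, Continuous f →
    Tendsto (average q a x f) atTop (𝓝 (∫ t, f t ∂ν))

/-- The Sato-Tate measure of `SU(2)^g`: the `θ_i` are independent, with the density
`(2/π) sin² θ` on `[0, π]`. -/
noncomputable def satoTate (g : ℕ) : Measure (Fin g → ℝ) :=
  Measure.pi fun _ => ((volume.restrict (Set.Ioc 0 Real.pi)).withDensity
    fun θ => ENNReal.ofReal (2 / Real.pi * Real.sin θ ^ 2)).map fun θ => 2 * Real.cos θ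

theorem U_eq : ∀ (n : ℕ) (x : ℝ), U n x = Pool.Agent.H414.GRC.u n x
  | 0, _ => rfl
  | 1, _ => rfl
  | n + 2, x => by
    rw [U, Pool.Agent.H414.GRC.u_add_two, U_eq (n + 1) x, U_eq n x]

theorem character_eq (m : Rep g) (t : Fin g → ℝ) : character m t = Pool.Agent.H414.ST.chi m t := by
  unfold character Pool.Agent.H414.ST.chi Pool.Agent.H414.ST.P
  simp only [U_eq]

theorem factor_eq (m : Rep g) (α : Fin g → ℂ) (z : ℂ) :
    factor m α z = Pool.Agent.H414.ST.facR m α z := rfl

theorem traces_eq {t : Fin g → ℝ} (ht : t ∈ Pool.Agent.H414.ST.Q g) :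
    traces (fun i => Pool.Agent.H414.GRC.al (t i)) = t := by
  funext i
  have h1 : ‖Pool.Agent.H414.GRC.al (t i)‖ = 1 := Pool.Agent.H414.GRC.al_norm (ht i)
  have h2 := Pool.Agent.H414.GRC.al_trace (t i)
  rw [Complex.inv_eq_conj h1, Complex.add_conj] at h2
  exact_mod_cast h2

/-- The universal construction. -/
theorem universal (ν : Measure (Fin g → ℝ)) [IsProbabilityMeasure ν]
    (hν : ∀ᵐ t ∂ν, ∀ i, |t i| ≤ 2) :
    ∃ x : ℕ → Fin g → ℂ, IsSystem x ∧ IsIntegral x ∧ HasLawAP x ν ∧
      ∀ (m : Rep g) (q : ℕ) [NeZero q] (χ : DirichletCharacter ℂ q),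
        ∃ h : ℂ → ℂ, DifferentiableOn ℂ h {s | 1 / 2 < s.re} ∧ ∀ s : ℂ, 1 < s.re →
          HasProd (fun p : Nat.Primes => factor m (x p) (χ p * (p : ℂ) ^ (-s)))
            (Complex.exp (((∫ t, character m t ∂ν : ℝ) : ℂ) *
              (∑' p : Nat.Primes, -Complex.log (1 - χ p * (p : ℂ) ^ (-s))) + h s)) := by
  obtain ⟨t, h1, h2, h3, h4⟩ := Pool.Agent.H414.ST.build ν hν
  refine ⟨fun p i => Pool.Agent.H414.GRC.al (t p i),
    fun p i => Pool.Agent.H414.GRC.al_norm (h1 p i), fun p hp i => ?_, ?_, ?_⟩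
  · obtain ⟨a, ha⟩ := h2 p hp i
    exact ⟨a, by rw [Pool.Agent.H414.GRC.al_trace]; exact ha⟩
  · intro q a ha hc f hf
    refine (h3 q a ha hc f hf).congr fun N => ?_
    rw [Pool.Agent.H414.ST.avg, average]
    congr 1
    refine Finset.sum_congr rfl fun p _ => ?_
    rw [traces_eq (h1 p)]
  · intro m q _ χ
    choose h hd hs using fun k => h4 k q χ
    refine ⟨fun s => m.sum fun k e => e * h k s, ?_, fun s hs1 => ?_⟩
    · unfold Finsupp.sum
      exact DifferentiableOn.fun_sum fun k _ => (hd k).const_mul _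
    · have h5 := Pool.Agent.H414.ST.hasProd_rep m _ _ fun k => hs k s hs1
      have hint : ∀ k : Fin g → ℕ, Integrable (Pool.Agent.H414.ST.P k) ν := by
        intro k
        obtain ⟨C, hC⟩ := Pool.Agent.H414.ST.P_bdd k
        refine Integrable.of_bound
          (Pool.Agent.H414.ST.P_continuous k).aestronglyMeasurable C ?_
        filter_upwards [hν] with y hy
        exact hC _ hy
      have h6 : ∫ t, character m t ∂ν =
          m.sum fun k e => (e : ℝ) * ∫ t, Pool.Agent.H414.ST.P k t ∂ν := by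
        simp only [character_eq]
        unfold Pool.Agent.H414.ST.chi Finsupp.sum
        rw [integral_finsetSum _ fun k _ => (hint k).const_mul _]
        exact Finset.sum_congr rfl fun k _ => integral_const_mul _ _
      have h7 : ((∫ t, character m t ∂ν : ℝ) : ℂ) *
          (∑' p : Nat.Primes, -Complex.log (1 - χ p * (p : ℂ) ^ (-s))) +
          (m.sum fun k e => e * h k s) = m.sum fun k e => (e : ℂ) *
            (((∫ t, Pool.Agent.H414.ST.P k t ∂ν : ℝ) : ℂ) *
              (∑' p : Nat.Primes, -Complex.log (1 - χ p * (p : ℂ) ^ (-s))) + h k s) := by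
        rw [h6]
        unfold Finsupp.sum
        push_cast
        rw [Finset.sum_mul, ← Finset.sum_add_distrib]
        exact Finset.sum_congr rfl fun k _ => by ring
      rw [h7]
      exact h5

theorem tfae (ν : Measure (Fin g → ℝ)) [IsProbabilityMeasure ν] (hν : ∀ᵐ t ∂ν, ∀ i, |t i| ≤ 2)
    (F : Set (Rep g × ℕ)) :
    [∃ x : ℕ → Fin g → ℂ, IsSystem x ∧ IsIntegral x ∧ HasLawAP x ν ∧
      ∀ r ∈ F, ∀ (q : ℕ) [NeZero q] (χ : DirichletCharacter ℂ q),
        ∃ h : ℂ → ℂ, DifferentiableOn ℂ h {s | 1 / 2 < s.re} ∧ ∀ s : ℂ, 1 < s.re →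
          HasProd (fun p : Nat.Primes => factor r.1 (x p) (χ p * (p : ℂ) ^ (-s)))
            (LSeries (fun n => χ n) s ^ r.2 * Complex.exp (h s)),
    ∃ x : ℕ → Fin g → ℂ, IsSystem x ∧ HasLaw x ν ∧
      ∀ r ∈ F, ∃ c : ℂ, c ≠ 0 ∧ Tendsto (fun s : ℝ => ((s : ℂ) - 1) ^ r.2 *
        ∏' p : Nat.Primes, factor r.1 (x p) ((p : ℂ) ^ (-(s : ℂ)))) (𝓝[>] 1) (𝓝 c),
    ∀ r ∈ F, ∫ t, character r.1 t ∂ν = r.2].TFAE := by
  apply List.tfae_of_cycle
  · simp only [List.isChain_cons_cons, List.isChain_singleton, and_true]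
    refine ⟨?_, ?_⟩
    · rintro ⟨x, h1, -, h3, h4⟩
      refine ⟨x, h1, fun f hf => h3 1 0 (by norm_num) (by norm_num) f hf, fun r hr => ?_⟩
      obtain ⟨h, hd, hs⟩ := h4 r hr 1 1
      refine ⟨Complex.exp (h 1), Complex.exp_ne_zero _, ?_⟩
      have h6 : Tendsto (fun s : ℝ => (s : ℂ)) (𝓝[>] 1) (𝓝[≠] 1) := by
        refine tendsto_nhdsWithin_iff.2 ⟨?_, ?_⟩
        · have := Complex.continuous_ofReal.tendsto 1
          rw [Complex.ofReal_one] at this
          exact this.mono_left nhdsWithin_le_nhds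
        · filter_upwards [self_mem_nhdsWithin] with s hs
          have hs : 1 < s := hs
          intro h
          rw [Set.mem_singleton_iff] at h
          have : s = 1 := by exact_mod_cast h
          linarith
      have h7 : Tendsto (fun s : ℝ => (((s : ℂ) - 1) * riemannZeta s) ^ r.2 *
          Complex.exp (h s)) (𝓝[>] 1) (𝓝 (1 ^ r.2 * Complex.exp (h 1))) := by
        refine Tendsto.mul ((riemannZeta_residue_one.comp h6).pow r.2) ?_
        refine (Complex.continuous_exp.tendsto _).comp ?_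
        have h8 : ContinuousAt h 1 := by
          refine (hd.differentiableAt ?_).continuousAt
          exact (isOpen_lt continuous_const Complex.continuous_re).mem_nhds (by norm_num)
        exact h8.tendsto.comp (h6.mono_right nhdsWithin_le_nhds)
      rw [one_pow, one_mul] at h7
      refine h7.congr' ?_
      filter_upwards [self_mem_nhdsWithin] with s hs1
      have hs1 : 1 < s := hs1
      have h8 := hs (s : ℂ) (by simpa using hs1)
      have h9 : ∀ n : ℕ, (1 : DirichletCharacter ℂ 1) (n : ZMod 1) = 1 := by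
        intro n
        have : ((n : ℕ) : ZMod 1) = 1 := Subsingleton.elim _ _
        rw [this, map_one]
      simp only [h9, one_mul] at h8
      have h10 : LSeries (fun _ => (1 : ℂ)) s = riemannZeta s := by
        have := LSeries_one_eq_riemannZeta (s := (s : ℂ)) (by simpa using hs1)
        rw [← this]
        rfl
      rw [h8.tprod_eq, h10, mul_pow, mul_assoc]
    · rintro ⟨x, h1, h2, h3⟩ r hr
      obtain ⟨c, hc, hlim⟩ := h3 r hr
      have htr : ∀ p l, x p l + (x p l)⁻¹ = (traces (x p) l : ℝ) := by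
        intro p l
        rw [Complex.inv_eq_conj (h1 p l), Complex.add_conj]
        rfl
      have hQ : ∀ p, traces (x p) ∈ Pool.Agent.H414.ST.Q g := by
        intro p i
        have h4 := Complex.abs_re_le_norm (x p i)
        rw [h1 p i] at h4
        rw [traces, abs_mul, abs_two]
        linarith
      have h5 := Pool.Agent.H414.ST.necessity ν x h1 (fun p => traces (x p)) htr hQ
        (fun f hf => h2 f hf) r.1 r.2 c hc hlim
      simp only [character_eq]
      exact h5
  · intro h3
    obtain ⟨x, h1, h2, h4, h5⟩ := universal ν hν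
    refine ⟨x, h1, h2, h4, fun r hr q _ χ => ?_⟩
    obtain ⟨h, hd, hs⟩ := h5 r.1 q χ
    refine ⟨h, hd, fun s hs1 => ?_⟩
    have h6 := hs s hs1
    rw [h3 r hr, Complex.exp_add] at h6
    have h7 : ((r.2 : ℝ) : ℂ) = (r.2 : ℂ) := by push_cast; rfl
    rw [h7, Complex.exp_nat_mul, DirichletCharacter.LSeries_eulerProduct_exp_log χ hs1] at h6
    exact h6

/-- **The laws compatible with a set of `L`-functions.**
(1) Every probability measure `ν` on the classes is the law, in all progressions, of an integral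
system with `L(s, m ⊗ χ) = exp (c log L(s, χ) + h(s))`, `c = ∫ character m dν`, `h` holomorphic for
`Re s > 1/2`, for all representations `m` and all Dirichlet characters `χ`; here `log L(s, χ)` is
the sum of the `-log (1 - χ(p) p^{-s})`.
(2) For every set `F` of pairs `(m, e)` the following are equivalent: there is an integral system
with the law `ν` in all progressions and `L(s, m ⊗ χ) = L(s, χ)^e exp (h(s))`, `h` holomorphic for
`Re s > 1/2`, for all `(m, e) ∈ F` and all Dirichlet characters `χ`; there is a system with the law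
`ν` such that `(s - 1)^e L(s, m)` has a limit `≠ 0` for `s → 1+`, for all `(m, e) ∈ F`;
`∫ character m dν = e` for all `(m, e) ∈ F`.
(3) For every irreducible `k₀ ≠ 1` there are a measure `ν ≠ satoTate g` and an integral system with
the law `ν` in all progressions such that for all Dirichlet characters `χ`
`L(s, k ⊗ χ) = exp (h(s))`, `h` holomorphic for `Re s > 1/2`, for all irreducible `k ≠ 1, k₀`, and
`L(s, k₀ ⊗ χ) = exp (c log L(s, χ) + h(s))`, where `0 < c < 1` does not depend on `χ`. -/
theorem result (g : ℕ) :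
    (∀ (ν : Measure (Fin g → ℝ)), IsProbabilityMeasure ν → (∀ᵐ t ∂ν, ∀ i, |t i| ≤ 2) →
      (∃ x : ℕ → Fin g → ℂ, IsSystem x ∧ IsIntegral x ∧ HasLawAP x ν ∧
        ∀ (m : Rep g) (q : ℕ) [NeZero q] (χ : DirichletCharacter ℂ q),
          ∃ h : ℂ → ℂ, DifferentiableOn ℂ h {s | 1 / 2 < s.re} ∧ ∀ s : ℂ, 1 < s.re →
            HasProd (fun p : Nat.Primes => factor m (x p) (χ p * (p : ℂ) ^ (-s)))
              (Complex.exp (((∫ t, character m t ∂ν : ℝ) : ℂ) *
                (∑' p : Nat.Primes, -Complex.log (1 - χ p * (p : ℂ) ^ (-s))) + h s))) ∧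
      ∀ F : Set (Rep g × ℕ),
        [∃ x : ℕ → Fin g → ℂ, IsSystem x ∧ IsIntegral x ∧ HasLawAP x ν ∧
          ∀ r ∈ F, ∀ (q : ℕ) [NeZero q] (χ : DirichletCharacter ℂ q),
            ∃ h : ℂ → ℂ, DifferentiableOn ℂ h {s | 1 / 2 < s.re} ∧ ∀ s : ℂ, 1 < s.re →
              HasProd (fun p : Nat.Primes => factor r.1 (x p) (χ p * (p : ℂ) ^ (-s)))
                (LSeries (fun n => χ n) s ^ r.2 * Complex.exp (h s)),
        ∃ x : ℕ → Fin g → ℂ, IsSystem x ∧ HasLaw x ν ∧
          ∀ r ∈ F, ∃ c : ℂ, c ≠ 0 ∧ Tendsto (fun s : ℝ => ((s : ℂ) - 1) ^ r.2 *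
            ∏' p : Nat.Primes, factor r.1 (x p) ((p : ℂ) ^ (-(s : ℂ)))) (𝓝[>] 1) (𝓝 c),
        ∀ r ∈ F, ∫ t, character r.1 t ∂ν = r.2].TFAE) ∧
    ∀ k₀ : Fin g → ℕ, k₀ ≠ 0 → ∃ (ν : Measure (Fin g → ℝ)) (c : ℝ) (x : ℕ → Fin g → ℂ),
      IsProbabilityMeasure ν ∧ (∀ᵐ t ∂ν, ∀ i, |t i| ≤ 2) ∧ ν ≠ satoTate g ∧ 0 < c ∧ c < 1 ∧
      IsSystem x ∧ IsIntegral x ∧ HasLawAP x ν ∧
      ∀ (q : ℕ) [NeZero q] (χ : DirichletCharacter ℂ q),
        (∀ k : Fin g → ℕ, k ≠ 0 → k ≠ k₀ →
          ∃ h : ℂ → ℂ, DifferentiableOn ℂ h {s | 1 / 2 < s.re} ∧ ∀ s : ℂ, 1 < s.re →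
            HasProd (fun p : Nat.Primes =>
              factor (Finsupp.single k 1) (x p) (χ p * (p : ℂ) ^ (-s))) (Complex.exp (h s))) ∧
        ∃ h : ℂ → ℂ, DifferentiableOn ℂ h {s | 1 / 2 < s.re} ∧ ∀ s : ℂ, 1 < s.re →
          HasProd (fun p : Nat.Primes =>
            factor (Finsupp.single k₀ 1) (x p) (χ p * (p : ℂ) ^ (-s)))
            (Complex.exp (c * (∑' p : Nat.Primes, -Complex.log (1 - χ p * (p : ℂ) ^ (-s))) +
              h s)) := by
  refine ⟨fun ν _ hν => ⟨universal ν hν, tfae ν hν⟩, fun k₀ hk₀ => ?_⟩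
  obtain ⟨ν, c, hp, hν, hc0, hc1, hmom, hmom2⟩ := Pool.Agent.H414.ST.perturb k₀ hk₀
  obtain ⟨x, h1, h2, h3, h4⟩ := universal ν hν
  have hchar : ∀ k : Fin g → ℕ, ∫ t, character (Finsupp.single k 1) t ∂ν =
      ∫ t, Pool.Agent.H414.ST.P k t ∂ν := by
    intro k
    refine integral_congr_ae (ae_of_all _ fun t => ?_)
    rw [character_eq, Pool.Agent.H414.ST.chi, Finsupp.sum_single_index (by simp)]
    simp
  refine ⟨ν, c, x, hp, hν, ?_, hc0, hc1, h1, h2, h3, fun q _ χ => ⟨fun k hk hk' => ?_, ?_⟩⟩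
  · intro heq
    have h5 : ∫ t, Pool.Agent.H414.ST.P k₀ t ∂(Pool.Agent.H414.ST.stg g) = 0 := by
      have h6 := Pool.Agent.H414.ST.orthg (0 : Fin g → ℕ) k₀
      rw [if_neg hk₀.symm] at h6
      rw [← h6]
      refine integral_congr_ae (ae_of_all _ fun t => ?_)
      simp only [Pool.Agent.H414.ST.P_zero, one_mul]
    have h7 : satoTate g = Pool.Agent.H414.ST.stg g := rfl
    rw [heq, h7, h5] at hmom
    exact absurd hmom hc0.ne
  · obtain ⟨h, hd, hs⟩ := h4 (Finsupp.single k 1) q χ
    refine ⟨h, hd, fun s hs1 => ?_⟩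
    have h5 := hs s hs1
    rw [hchar, hmom2 k hk hk', Complex.ofReal_zero, zero_mul, zero_add] at h5
    exact h5
  · obtain ⟨h, hd, hs⟩ := h4 (Finsupp.single k₀ 1) q χ
    refine ⟨h, hd, fun s hs1 => ?_⟩
    have h5 := hs s hs1
    rw [hchar, hmom] at h5
    exact h5

end Pool.Agent.Results.MP_753a9c_nt.CompatibleLaws
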