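import Pool.Agent.H367.OS.OOri
import Mathlib

/-!
# The Sato-Tate conjecture for abelian varieties and single pieces of one sequence of cubics

A relation `r` of size `m` is one of the equations `x_i x_j = x_l`, `x_i + x_j = x_l`, `x_i = 1` with
`i, j, l < m`; the relations are numbered, the number of `r` is `ν(r)` (`relNum`). Let `G_m` be the
following polynomial with integral coefficients (`univG ℤ m`). There are variables `x_i` and `z_ij` for
`i, j < m`, a variable `c_r` for every relation `r`, and variables `y_{r,l}` for all relations `r` and
`l < (m + 1) 2 ^ ν(r)`. The equations (`eqnG`) are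

  `z_ij - x_i x_j`,  `c_r ^ 2 - c_r`,  `c_r ρ_r`,  `(1 - c_r) y_{r,l}`,

where `ρ_r` is the linear polynomial `z_ij - x_l`, `x_i + x_j - x_l` or `x_i - 1` of the relation.
`G_m` is the sum of the equations multiplied by further variables `t_e`, one for each equation. It has
degree three. Let `C_m` be the affine cubic hypersurface `G_m = 1` (`cubG R m` over the ring `R`); it is
smooth over the integers.

Let `M` be the category of motives over `ℚ` (motivated cycles), a semisimple abelian category with
Tate twists `N ↦ N(a)`. For a separated scheme `X` of finite type over `ℚ` let `D.G w j X = Gr^W_w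
H^j_c(X)` be the part of weight `w` of the cohomology with compact supports, a motive over `ℚ`; for
smooth projective `Y` it is `h^j(Y)` if `j = w`, and zero otherwise.

For an abelian variety `B : Ab` over `ℚ` let `h1 B` be the motive `h^1(B)`, let `S.deg B = 2 dim B`,
let `S.coef B i p` be the coefficient `a_i(B)(p)` of the normalised `L`-polynomial at the prime number
`p` (any number, if `B` has bad reduction at `p`; these finitely many primes do not matter), and let
`S.meas B i` be the image of the Haar measure of the Sato-Tate group of `B` under the map `Φ_i`, a
measure on `ℝ` with support in `I_i`. `SatoTate S B` is the statement of question Q1 for `B`: for all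
`i ≤ 2 dim B` the numbers `a_i(B)(p)` are equidistributed with respect to `Φ_{i*}(μ)`.

The abelian varieties over `ℚ` are smooth projective schemes, and the direct factors of the motive
`h^1(Y)` of a smooth projective scheme `Y` over `ℚ` are the motives `h^1(B)` of abelian varieties `B`
over `ℚ` (the quotients of the Albanese variety of `Y`); see `AbelianVarieties`. For abelian varieties
over `ℚ` the motive `h^1(B)` is a direct factor of `h^1(B')` if and only if `B` is isogenous to a
factor of `B'` up to isogeny.

**Theorem.** Let `E_m` be the number of the equations, and for `N ∈ ℕ` let `e = (m + 1) N + E_m - 1`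
(`esh m N`).

(1) For all `m ≥ 1` and `N` the motive `Gr^W_{2e+1} H^{2e+2}_c(C_m)(e)` is `h^1(B)` for an abelian
variety `B = B_{m,N}` over `ℚ`, and for every abelian variety `B` over `ℚ` and all large `m` there is
an `N` such that `h^1(B)` is a direct factor of `h^1(B_{m,N})`.

(2) Question Q1 has a positive answer for all abelian varieties over `ℚ` if and only if for infinitely
many `m` and all `N` it has a positive answer for all abelian varieties `B` such that `h^1(B)` is a
direct factor of the single motive `Gr^W_{2e+1} H^{2e+2}_c(C_m)(e)`, the motive `h^1(B_{m,N})`.

(3) `G_m` has integral coefficients and degree at most three, and `C_m` is smooth over all rings.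

The hypotheses on the motives are standard (`IsMot`): exact sequences, affine bundles, disjoint unions,
the cohomology of affine spaces, the weights of `H^j_c(X)` are between `0` and `2 dim X`, monomorphisms
split, `Gr^W_w H^j_c(X)` is a direct factor of `h^w(Y)` for some smooth projective `Y` (it is a
subquotient, by the weight spectral sequence), and every smooth projective scheme has an affine bundle
whose total space is affine (Jouanolou).

Idea of the proof. The projection of `C_m` to the affine space with the coordinates `x, z, c, y` is an
affine bundle over the complement of the zero set `W_m` of the equations. The scheme `W_m` is the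
disjoint union, over all sets `s` of relations (`c_r = 1` for `r ∈ s` and `c_r = 0` for the others), of
the products `X_s × 𝔸 ^ ((m + 1) N(s))`, where `X_s` is the affine scheme defined by the relations in
`s` and `N(s) = ∑_{r ∈ s} 2 ^ ν(r)`. The numbers `N(s)` are different, and the weights of the
cohomology of `X_s` are between `0` and `2 m`. So the part of weight `w + 2 (m + 1) N(s)`,
`0 ≤ w ≤ 2 m + 1`, of the cohomology of `W_m` is the twist of the part of weight `w` of the cohomology of
`X_s`, and it is different from the weight of the cohomology of the affine space. Every affine scheme of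
finite type over a prime field is an `X_s`, for all large `m`. The pieces of the cohomology of an
arbitrary scheme are direct factors of those of a disjoint union of affine schemes.

The universal system of relations is the one of helper854 (`Pool.Agent.H854.SQ`).
-/

set_option autoImplicit false

open CategoryTheory CategoryTheory.Limits AlgebraicGeometry Pool.Agent.Y116.UV Pool.Agent.Z125.UN
  Pool.Agent.Q193.LT Pool.Agent.H854.SQ Pool.Agent.H367.OS
  MeasureTheory
open scoped BoundedContinuousFunction Nat.Prime

universe w v u



namespace Pool.Agent.Results.MP_753a9c_nt.PiecesOfOneSequence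

/-- The normalised Euler factors and the images of the Haar measures of the Sato-Tate groups of the
abelian varieties over `ℚ`. -/
structure STData (Ab : Type w) where
  /-- the degree `2 dim B` -/
  deg : Ab → ℕ
  /-- the coefficients `a_i(B)(p)` -/
  coef : Ab → ℕ → ℕ → ℝ
  /-- the measure `Φ_{i*}(μ)` -/
  meas : Ab → ℕ → Measure ℝ

/-- The numbers `a_i(B)(p)` are equidistributed with respect to the measure `Φ_{i*}(μ)`, for all `i`. -/
def SatoTate {Ab : Type w} (S : STData Ab) (B : Ab) : Prop :=
  ∀ i ≤ S.deg B, ∀ f : ℝ →ᵇ ℝ, Filter.Tendsto (fun n : ℕ =>
    (∑ p ∈ (Finset.range (n + 1)).filter Nat.Prime, f (S.coef B i p)) / (π n : ℝ))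
    Filter.atTop (nhds (∫ x, f x ∂S.meas B i))

/-- **The Sato-Tate conjecture for abelian varieties and single pieces of one sequence of cubic
hypersurfaces over the integers.** See the explanations above. -/
theorem result {M : Type u} [Category.{v} M] [Abelian M] {D : Pieces ℚ M} (h : IsMot D)
    {Ab : Type w} {h1 : Ab → M} (ha : AbelianVarieties D h1) (S : STData Ab) :
    (∀ m, 1 ≤ m → ∀ N : ℕ, ∃ B : Ab, Nonempty (h1 B ≅ (D.tw (esh m N)).obj
      (D.G (1 + 2 * esh m N) (1 + 2 * esh m N + 1) (cubG ℚ m)))) ∧
    (∀ B : Ab, ∀ᶠ m in Filter.atTop, ∃ N : ℕ, Factor (h1 B) ((D.tw (esh m N)).obj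
      (D.G (1 + 2 * esh m N) (1 + 2 * esh m N + 1) (cubG ℚ m)))) ∧
    ((∀ B : Ab, SatoTate S B) ↔ ∃ᶠ m in Filter.atTop, ∀ (N : ℕ) (B : Ab),
      Factor (h1 B) ((D.tw (esh m N)).obj
        (D.G (1 + 2 * esh m N) (1 + 2 * esh m N + 1) (cubG ℚ m))) → SatoTate S B) ∧
    ∀ m : ℕ, (univG ℤ m).totalDegree ≤ 3 ∧
      ∀ (R : Type) [CommRing R], MvPolynomial.map (Int.castRingHom R) (univG ℤ m) = univG R m ∧
        Smooth (cubG R m).hom := by
  obtain ⟨h2, h3⟩ := abelian_occurs isPrimeField_rat h ha
  exact ⟨h2, h3, all_abelian isPrimeField_rat h ha _, cubG_facts⟩

end Pool.Agent.Results.MP_753a9c_nt.PiecesOfOneSequence
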