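import Pool.Agent.H63.TT.Fin
import Pool.Agent.H63.TT.Haar
import Pool.Graph.R_pool_sql_team_seeded_b3bd081e.Results.MP_c481b3_nt.TwistFamilies

/-!
# The coefficients `a_i` of the Euler factors of products of many twisted elliptic curves

Let `E_1, …, E_r` be elliptic curves `y² = f_j(x)` over a number field `K` without complex
multiplication, no two of which are isogenous up to a twist. For a tuple `d = (d_1, …, d_r)` let `A_d` be
the product of the quadratic twists `d_j y² = f_j(x)`, with the Sato-Tate group `SU(2)^r` and the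
normalised Euler factors `∏_j (1 - x_j(v) T + T²) = ∑ a_i(A_d)(v) T^i`.

The conjecture says that for each `i` the numbers `a_i(A_d)(v)` are distributed like the coefficients
`a_i(x)` of `∏ (1 - x_j T + T²)`, `x_j` independent with the Sato-Tate law (the image of the Haar measure of
`SU(2)^r`). The joint law of the traces of three or more of the curves `E_j` is not known. We prove for
every `i`: if `r` is large in terms of `i`, of a continuous bounded function `g` and of `ε`, then for every
family of tuples `d(k)` which are independent modulo squares, for all large `N` all but at most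
`2^r (4B/ε)²` members of the family, `B` a bound for `|g|`, satisfy

  `|mean of g(a_i(A_{d(k)})(v) / r^(i/2)) over the primes v of norm ≤ N - E g(a_i(x) / r^(i/2))| ≤ ε`.

Moreover both sides are within `ε` of `E g(h_i(y))` with a Gaussian variable `y`, where
`∑ h_i(y) T^i = exp(-yT + T²/2)` (`h_1 = -y`, `h_2 = (y² + 1)/2`, …).

What is used of the curves is a theorem if they are modular, in particular for `K = ℚ` (`DegreeTwo`: the
`L`-functions of the products of two of `1`, `E_i`, `Sym² E_i`, `E_i ⊗ E_j`, as Rankin-Selberg `L`-functions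
of `GL(n) × GL(m)`). The averages over families of twists are those of the theorem `TwistFamilies` of the library (a class function
and its average over the signs have nearly the same mean for almost all members); new here is the law
of the averages over the signs, and so of the coefficients.
-/

set_option autoImplicit false

namespace Pool.Agent.Results.MP_753a9c_nt.TwistedProducts

open MeasureTheory ProbabilityTheory NumberField IsDedekindDomain Filter Topology Polynomial
open Pool.Agent.Results.MP_c481b3_nt.TwistFamilies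

/-- The normalised trace of Frobenius at `v` of the quadratic twist `d y² = f(x)`: `q + 1` minus the
number of points over the field with `q` elements, divided by `√q`. -/
noncomputable def trace {K : Type} [Field K] [NumberField K] (f : (𝓞 K)[X]) (d : 𝓞 K)
    (v : HeightOneSpectrum (𝓞 K)) : ℝ :=
  (traceH1 v f d 1 : ℝ) / Real.sqrt (Ideal.absNorm v.asIdeal : ℝ)

/-- The coefficient of `T ^ i` in the normalised Euler factor `∏_j (1 - x_j T + T²)`. -/
noncomputable def eulerCoeff {r : ℕ} (i : ℕ) (x : Fin r → ℝ) : ℝ :=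
  (∏ j, (1 - C (x j) * X + X ^ 2) : ℝ[X]).coeff i

/-- `h_0 = 1`, `h_1 = -y`, `(i + 2) h_(i+2) = -y h_(i+1) + h_i`: the coefficient of `T ^ i` in
`exp(-yT + T²/2)`. -/
noncomputable def h : ℕ → ℝ → ℝ
  | 0, _ => 1
  | 1, y => -y
  | (i + 2), y => (-y * h (i + 1) y + h i y) / (i + 2)

/-- The Sato-Tate law of the angle, `(2/π) sin² t dt` on `[0, π]`. -/
noncomputable def satoTate : Measure ℝ :=
  (volume.restrict (Set.Icc 0 Real.pi)).withDensity fun t =>
    ENNReal.ofReal (2 / Real.pi * Real.sin t ^ 2)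

/-- The mean of `F (x_1, …, x_r)` for independent `x_j = 2 cos t_j` with the Sato-Tate law, that is, the
integral over the group `SU(2)^r` of this function of the traces. -/
noncomputable def haarMean {r : ℕ} (F : (Fin r → ℝ) → ℝ) : ℝ :=
  ∫ t : Fin r → ℝ, F (fun j => 2 * Real.cos (t j)) ∂(Measure.pi fun _ => satoTate)

theorem h_eq : ∀ (i : ℕ) (y : ℝ), Pool.Agent.H63.TT.herm i y = h i y
  | 0, y => rfl
  | 1, y => rfl
  | (i + 2), y => by
    simp only [Pool.Agent.H63.TT.herm, h]
    rw [h_eq (i + 1) y, h_eq i y]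

/-- The mean over the primes of norm at most `N` of `g (a_i(A_d)(v) / r^(i/2))`. -/
noncomputable def primeMean {K : Type} [Field K] [NumberField K] {r : ℕ}
    (S : Finset (HeightOneSpectrum (𝓞 K))) (f : Fin r → (𝓞 K)[X]) (d : Fin r → 𝓞 K) (i : ℕ)
    (g : ℝ → ℝ) (N : ℕ) : ℝ :=
  Pool.Agent.Results.MP_c481b3_nt.TwistFamilies.average S N
    (fun v => g (eulerCoeff i (fun j => trace (f j) (d j) v) / √r ^ i))

theorem result (i : ℕ) (g : ℝ → ℝ) (hg : Continuous g) (B : ℝ) (hB : ∀ y, |g y| ≤ B)
    (ε : ℝ) (hε : 0 < ε) : ∃ r₀ : ℕ, ∀ r : ℕ, r₀ ≤ r →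
    -- the curves, and the known facts about them
    ∀ (K : Type) [Field K] [NumberField K] (f : Fin r → (𝓞 K)[X]), (∀ j, (f j).natDegree = 3) →
      ∀ θ : Fin r → HeightOneSpectrum (𝓞 K) → ℝ, Pool.Agent.H63.HS.DegreeTwo θ →
    -- the family of twists
    ∀ (κ : Type) (T : Finset κ) (d : κ → Fin r → 𝓞 K), (∀ k ∈ T, ∀ j, d k j ≠ 0) →
      (∀ k ∈ T, ∀ l ∈ T, k ≠ l → ∀ A : Finset (Fin r), A.Nonempty →
        ¬ IsSquare ((∏ j ∈ A, (d k j * d l j) : 𝓞 K) : K)) →
    -- the finite set of excluded primes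
    ∀ S : Finset (HeightOneSpectrum (𝓞 K)),
      (∀ v, v ∉ S → ∀ k ∈ T, ∀ j, 2 * d k j * (f j).leadingCoeff ∉ v.asIdeal ∧
        ((f j).map (Ideal.Quotient.mk v.asIdeal)).Separable) →
      (∀ v, v ∉ S → ∀ j, 2 * Real.cos (θ j v) = trace (f j) 1 v) →
    -- the law of the coefficients
    ∀ᶠ N : ℕ in atTop, ({k : κ | k ∈ T ∧ ¬
      (|primeMean S f (d k) i g N - haarMean fun x : Fin r → ℝ => g (eulerCoeff i x / √r ^ i)| ≤ ε ∧
        |primeMean S f (d k) i g N - ∫ y, g (h i y) ∂(gaussianReal 0 1)| ≤ ε)}.ncard : ℝ) ≤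
          2 ^ r * (4 * B / ε) ^ 2 := by
  have hε4 : 0 < ε / 4 := by positivity
  have hε2 : 0 < ε / 2 := by positivity
  obtain ⟨r₁, _, hr₁⟩ := Pool.Agent.H63.TT.primes i hg hB hε4
  obtain ⟨r₂, _, hr₂⟩ := Pool.Agent.H63.TT.haar i hg hB hε2
  refine ⟨max r₁ r₂, ?_⟩
  intro r hr K _ _ f _ θ hθ κ T d hd0 hsep S hS hx
  set F : (Fin r → ℕ → ℝ) → ℝ := fun x => g (Pool.Agent.H63.TT.b (fun j => x j 0) i) with hF
  have htw := Pool.Agent.Results.MP_c481b3_nt.TwistFamilies.result K r f κ T d hd0 hsep S hS F B (fun x => hB _)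
  have h2 := htw.2.1 (ε / 4) hε4
  have h3 := htw.2.2
  have hH : |haarMean (fun x : Fin r → ℝ => g (eulerCoeff i x / √r ^ i)) -
      ∫ y, g (h i y) ∂(gaussianReal 0 1)| ≤ ε / 2 := by
    have h6 : ∫ y, g (Pool.Agent.H63.TT.herm i y) ∂(gaussianReal 0 1) =
        ∫ y, g (h i y) ∂(gaussianReal 0 1) := by
      simp only [h_eq]
    rw [← h6]
    exact hr₂ r ((le_max_right _ _).trans hr)
  filter_upwards [h2, hr₁ r ((le_max_left _ _).trans hr) K θ hθ S] with N hN1 hN2
  have htr : ∀ k v j, frobClass f (d k) v j 0 = trace (f j) (d k j) v := by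
    intro k v j
    unfold frobClass trace
    simp
  have htr1 : ∀ v j, frobClass f (fun _ => 1) v j 0 = trace (f j) 1 v := by
    intro v j
    unfold frobClass trace
    simp
  -- the average over the signs
  have hsm : ∀ k ∈ T, Pool.Agent.Results.MP_c481b3_nt.TwistFamilies.average S N (fun v => signMean F (frobClass f (d k) v)) =
      Pool.Agent.H63.HS.av (Pool.Agent.H126U.ST.VS S N) (fun v => Pool.Agent.H63.TT.sgn
        (fun z => g (Pool.Agent.H63.TT.b z i)) (fun j => 2 * Real.cos (θ j v))) := by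
    intro k hk
    classical
    have hset : {v : HeightOneSpectrum (𝓞 K) | v ∉ S ∧ Ideal.absNorm v.asIdeal ≤ N} =
        ((Pool.Agent.H126U.ST.VS S N : Finset (HeightOneSpectrum (𝓞 K))) :
          Set (HeightOneSpectrum (𝓞 K))) := by
      ext v
      have h1 : v ∈ Pool.Agent.H126U.VX K N ↔ Ideal.absNorm v.asIdeal ≤ N :=
        Pool.Agent.H126U.mem_VX K
      simp only [Pool.Agent.H126U.ST.VS, Finset.coe_filter, h1, Set.mem_ofPred_eq]
      exact and_comm
    unfold Pool.Agent.Results.MP_c481b3_nt.TwistFamilies.average Pool.Agent.H63.HS.av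
    rw [hset, finsum_mem_coe_finset, Set.ncard_coe_finset, div_eq_inv_mul]
    congr 1
    refine Finset.sum_congr rfl fun v hv => ?_
    have hvS : v ∉ S := (Finset.mem_filter.1 hv).2
    rw [h3 k hk v hvS]
    unfold signMean Pool.Agent.H63.TT.sgn
    congr 1
    refine Finset.sum_congr rfl fun s _ => ?_
    rw [hF]
    simp only [signAct, zero_add, pow_one, htr1]
    congr 2
    funext j
    rw [hx v hvS j]
  refine le_trans ?_ (hN1.trans ?_)
  · have hfin : {k : κ | k ∈ T ∧ ε / 4 ≤ |Pool.Agent.Results.MP_c481b3_nt.TwistFamilies.average S N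
        (fun v => F (frobClass f (d k) v)) -
        Pool.Agent.Results.MP_c481b3_nt.TwistFamilies.average S N
        (fun v => signMean F (frobClass f (d k) v))|}.Finite :=
      T.finite_toSet.subset fun k hk => hk.1
    have hsub : {k : κ | k ∈ T ∧ ¬
        (|primeMean S f (d k) i g N - haarMean fun x : Fin r → ℝ => g (eulerCoeff i x / √r ^ i)| ≤ ε ∧
          |primeMean S f (d k) i g N - ∫ y, g (h i y) ∂(gaussianReal 0 1)| ≤ ε)} ⊆
        {k : κ | k ∈ T ∧ ε / 4 ≤ |Pool.Agent.Results.MP_c481b3_nt.TwistFamilies.average S N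
        (fun v => F (frobClass f (d k) v)) -
        Pool.Agent.Results.MP_c481b3_nt.TwistFamilies.average S N
        (fun v => signMean F (frobClass f (d k) v))|} := by
      intro k hk
      refine ⟨hk.1, ?_⟩
      by_contra hcon
      apply hk.2
      rw [hsm k hk.1] at hcon
      have h5 : (fun v => F (frobClass f (d k) v)) = fun v =>
          g (eulerCoeff i (fun j => trace (f j) (d k j) v) / √r ^ i) := by
        funext v
        rw [hF]
        simp only [htr]
        rfl
      rw [h5] at hcon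
      have h6 : ∫ y, g (Pool.Agent.H63.TT.herm i y) ∂(gaussianReal 0 1) =
          ∫ y, g (h i y) ∂(gaussianReal 0 1) := by
        simp only [h_eq]
      rw [h6] at hN2
      rw [not_le] at hcon
      have h7 := abs_sub_le (primeMean S f (d k) i g N)
        (Pool.Agent.H63.HS.av (Pool.Agent.H126U.ST.VS S N) (fun v => Pool.Agent.H63.TT.sgn
        (fun z => g (Pool.Agent.H63.TT.b z i)) (fun j => 2 * Real.cos (θ j v))))
        (∫ y, g (h i y) ∂(gaussianReal 0 1))
      have h8 : |primeMean S f (d k) i g N -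
          (Pool.Agent.H63.HS.av (Pool.Agent.H126U.ST.VS S N) (fun v => Pool.Agent.H63.TT.sgn
          (fun z => g (Pool.Agent.H63.TT.b z i)) (fun j => 2 * Real.cos (θ j v))))| < ε / 4 := hcon
      have h9 := abs_sub_le (primeMean S f (d k) i g N) (∫ y, g (h i y) ∂(gaussianReal 0 1))
        (haarMean fun x : Fin r → ℝ => g (eulerCoeff i x / √r ^ i))
      rw [abs_sub_comm (∫ y, g (h i y) ∂(gaussianReal 0 1))] at h9
      constructor <;> linarith
    exact_mod_cast Set.ncard_le_ncard hsub hfin
  · have h4 : (0 : ℝ) ≤ B ^ 2 / (ε / 4) ^ 2 := by positivity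
    have h5 : (2 ^ r - 1) * B ^ 2 / (ε / 4) ^ 2 = (2 ^ r - 1) * (B ^ 2 / (ε / 4) ^ 2) := by ring
    have h6 : (4 * B / ε) ^ 2 = B ^ 2 / (ε / 4) ^ 2 := by
      field_simp
    rw [h5, h6]
    nlinarith

end Pool.Agent.Results.MP_753a9c_nt.TwistedProducts
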